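import Pool.Agent.MP_5c28a4_al.H8S.Spec

/-!
Section S5, one step along the refined lower central series.
-/

set_option autoImplicit false

namespace Pool.Agent.MP_5c28a4_al.H89S.StA

open scoped commutatorElement

namespace StNc1

variable {N : Type} [Group N]

lemma comm_mul_left (a b x : N) : ⁅a * b, x⁆ = a * ⁅b, x⁆ * a⁻¹ * ⁅a, x⁆ := by
  simp only [commutatorElement_def]; group

lemma comm_pow_left {a x : N} (h : ⁅a, x⁆ * a = a * ⁅a, x⁆) (k : ℕ) : ⁅a ^ k, x⁆ = ⁅a, x⁆ ^ k := by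
  induction k with
  | zero => simp
  | succ k ih =>
    have h1 : Commute a (⁅a, x⁆ ^ k) := Commute.pow_right h.symm k
    rw [pow_succ', comm_mul_left, ih, h1.eq, mul_inv_cancel_right, pow_succ]

lemma comm_pow_right {a x : N} (h : ⁅a, x⁆ * x = x * ⁅a, x⁆) (k : ℕ) :
    ⁅a, x ^ k⁆ = ⁅a, x⁆ ^ k := by
  have h1 : ⁅x, a⁆ * x = x * ⁅x, a⁆ := by
    rw [← commutatorElement_inv]; exact (Commute.inv_left h).eq
  rw [← commutatorElement_inv, comm_pow_left h1, ← inv_pow, commutatorElement_inv]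

lemma cm_of_bot {C P : Subgroup N} (h : ⁅C, P⁆ = ⊥) : Cm C P := fun _ hb _ hx =>
  commutatorElement_eq_one_iff_mul_comm.1
    (Subgroup.mem_bot.1 (h ▸ Subgroup.commutator_mem_commutator hb hx))

/-- the elements of `P` whose commutators with `R` lie in `H` -/
def cS (P H : Subgroup N) (hP : Cm ⁅P, P⁆ P) (R : Set N) (hR : R ⊆ P) : Subgroup N where
  carrier := {y | y ∈ P ∧ ∀ q ∈ R, ⁅y, q⁆ ∈ H}
  one_mem' := ⟨P.one_mem, fun q _ => by simp⟩
  mul_mem' := fun {a b} ha hb => ⟨P.mul_mem ha.1 hb.1, fun q hq => by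
    rw [comm_mul_left, ← hP _ (Subgroup.commutator_mem_commutator hb.1 (hR hq)) a ha.1,
      mul_inv_cancel_right]
    exact H.mul_mem (hb.2 q hq) (ha.2 q hq)⟩
  inv_mem' := fun {a} ha => ⟨P.inv_mem ha.1, fun q hq => by
    have h1 := comm_mul_left a a⁻¹ q
    rw [← hP _ (Subgroup.commutator_mem_commutator (P.inv_mem ha.1) (hR hq)) a ha.1,
      mul_inv_cancel_right, mul_inv_cancel, commutatorElement_one_left] at h1
    rw [eq_inv_of_mul_eq_one_left h1.symm]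
    exact H.inv_mem (ha.2 q hq)⟩

/-- the elements of an abelian subgroup whose `k`-th power lies in `Y` -/
def rt (C Y : Subgroup N) (hC : Cm C C) (k : ℕ) : Subgroup N where
  carrier := {x | x ∈ C ∧ x ^ k ∈ Y}
  one_mem' := ⟨C.one_mem, by simp⟩
  mul_mem' := fun {a b} ha hb => ⟨C.mul_mem ha.1 hb.1, by
    rw [Commute.mul_pow (hC a ha.1 b hb.1)]; exact Y.mul_mem ha.2 hb.2⟩
  inv_mem' := fun {a} ha => ⟨C.inv_mem ha.1, by rw [inv_pow]; exact Y.inv_mem ha.2⟩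

lemma two (hF : BFin) {p : ℕ} {u : FF →₀ ℤ} {n L : ℕ} (hx : Cx p u n L) (e : ℕ) {A : Type}
    [AddCommGroup A] (ρ : Representation ℤ N A) (hfg : Group.FG N) (hso : Group.IsSolvable N)
    (hok : Ok p u ρ) (P B : Subgroup N) [hP : P.Normal] (hBP : B ≤ P) (hc : Cm B P)
    (hPP : ⁅P, P⁆ ≤ B) (hp : ∀ x ∈ P, x ^ p ∈ B) (hD : Cm B (Del N (p * L) e)) (hL : LG P) :
    ∃ t, Nil ρ (⁅P, ⁅P, Del N (p * L) (e + 1)⁆⁆ : Subgroup N) t := by
  classical
  have hpL : 0 < p * L := Nat.mul_pos hx.prime.pos hx.pos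
  obtain ⟨hn, hfi, -⟩ := hF.del N (p * L) e hso hfg hpL
  obtain ⟨hn', -, hfg'⟩ := hF.del N (p * L) (e + 1) hso hfg hpL
  obtain ⟨S, hS, hgen⟩ := hF.pwGen N _ _ hfg'
  have hgen' : Del N (p * L) (e + 1) = _ := hgen
  generalize Del N (p * L) (e + 1) = D' at hn' hgen'
  generalize Del N (p * L) e = D at hn hfi hS hD
  obtain ⟨s, hs⟩ := hL
  let _ : Fintype (N ⧸ D) := Subgroup.fintypeQuotientOfFiniteIndex
  have hPc : Cm ⁅P, P⁆ P := fun b hb => hc b (hPP hb)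
  have hQ : ⁅P, D'⁆ ≤ P := Subgroup.commutator_le_left _ _
  refine ⟨Fintype.card (N ⧸ D) * (s * S.card) * n + 1, ?_⟩
  rw [Subgroup.commutator_def P]
  refine Nil.closure (nil_of_finset fun F hF' => ?_)
  choose y hy q hq hyq using fun x : F => hF' x.2
  obtain ⟨T, hT1, hT2, hT3⟩ := hs (Finset.univ.image y) fun x hx => by
    obtain ⟨a, -, rfl⟩ := Finset.mem_image.1 hx; exact hy a
  let Z : (N ⧸ D) × N × N → Set N := fun i =>
    {x | ∃ c ∈ P, x = ⁅i.1.out * i.2.1 * i.1.out⁻¹, ⁅(i.2.2 ^ p) ^ L, c⁆⁆}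
  have hcP : ∀ (z c : N), c ∈ P → ⁅z, c⁆ ∈ P := fun z c h =>
    Subgroup.commutator_le_right ⊤ P (Subgroup.commutator_mem_commutator (Subgroup.mem_top z) h)
  have hZ := (nil_biUnion (ρ := ρ) (Finset.univ ×ˢ T ×ˢ S) Z B (fun b hb x h => hc b hb x (hBP h))
    (n := n) (fun i hi => by
      rintro _ ⟨c, h1, rfl⟩
      have h2 := hT2 _ (Finset.mem_product.1 (Finset.mem_product.1 hi).2).1
      exact hPP (Subgroup.commutator_mem_commutator (hP.conj_mem _ h2 _) (hcP _ c h1)))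
    fun i hi => by
      obtain ⟨h1, h2⟩ := Finset.mem_product.1 (Finset.mem_product.1 hi).2
      refine hx.st N A ρ hok P B _ hBP hc hPP hp
        (fun x h => ⟨hP.conj_mem x h _, by simpa using hP.conj_mem x h (i.2.2 ^ p)⁻¹⟩)
        (fun b hb => (hD b hb _ (D.pow_mem (hS _ h2) p)).symm) _ (hP.conj_mem _ (hT2 _ h1) _)).closure
  generalize hH : Subgroup.closure (⋃ i ∈ Finset.univ ×ˢ T ×ˢ S, Z i) = H at hZ
  have h1 : ∀ (t : N ⧸ D), ∀ b ∈ T, ∀ r ∈ ⁅P, D'⁆, ⁅t.out * b * t.out⁻¹, r⁆ ∈ H := by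
    intro t b hb r hr
    have h2 : ({t.out * b * t.out⁻¹} : Set N) ⊆ P :=
      Set.singleton_subset_iff.2 (hP.conj_mem _ (hT2 b hb) _)
    have h3 : ⁅D', P⁆ ≤ cS P H hPc _ h2 := by
      rw [hgen']
      refine comm_closure _ P _ ?_
      rintro _ ⟨z, hz, rfl⟩ c h4
      refine ⟨hcP _ c h4, ?_⟩
      rintro _ rfl
      rw [← commutatorElement_inv, ← hH]
      refine inv_mem (Subgroup.subset_closure (Set.mem_biUnion (x := (t, b, z)) ?_ ⟨c, h4, ?_⟩))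
      · simp [hb, hz]
      · rw [pow_mul]
    rw [Subgroup.commutator_comm] at h3
    rw [← commutatorElement_inv]
    exact inv_mem ((h3 hr).2 _ rfl)
  have h2 : Subgroup.normalClosure (↑T : Set N) ⊔ ⁅P, P⁆ ≤ cS P H hPc (⁅P, D'⁆ : Subgroup N) hQ := by
    refine sup_le ((Subgroup.closure_le _).2 fun x hx' => ?_) fun x h => ?_
    · obtain ⟨b, hb, h3⟩ := Group.mem_conjugatesOfSet_iff.1 hx'
      obtain ⟨g, rfl⟩ := isConj_iff.1 h3
      refine ⟨hP.conj_mem _ (hT2 b hb) _, fun r hr => ?_⟩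
      obtain ⟨⟨d, hd0⟩, hd⟩ := QuotientGroup.mk_out_eq_mul D g
      have h4 : g * d⁻¹ * g⁻¹ ∈ D := hn.conj_mem _ (D.inv_mem hd0) g
      have h5 : (g * d⁻¹ * g⁻¹)⁻¹ * r * (g * d⁻¹ * g⁻¹) ∈ ⁅P, D'⁆ := by
        simpa using (inferInstance : (⁅P, D'⁆ : Subgroup N).Normal).conj_mem r hr (g * d⁻¹ * g⁻¹)⁻¹
      have h6 := h1 (g : N ⧸ D) b hb _ h5
      have h7 := hD _ (hPP (Subgroup.commutator_mem_commutator
        (hP.conj_mem _ (hT2 b hb) (g : N ⧸ D).out) (hQ h5))) _ h4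
      have h8 : ⁅g * b * g⁻¹, r⁆ = (g * d⁻¹ * g⁻¹) * ⁅(g * d) * b * (g * d)⁻¹,
          (g * d⁻¹ * g⁻¹)⁻¹ * r * (g * d⁻¹ * g⁻¹)⁆ * (g * d⁻¹ * g⁻¹)⁻¹ := by
        simp only [commutatorElement_def]; group
      rw [h8, ← show _ = g * d from hd, ← h7, mul_inv_cancel_right]
      exact h6
    · refine ⟨hBP (hPP h), fun r hr => ?_⟩
      rw [commutatorElement_eq_one_iff_mul_comm.2 (hPc x h r (hQ hr))]
      exact H.one_mem
  refine hZ.mono (fun x hx' => ?_) ?_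
  · rw [← show ⁅y ⟨x, hx'⟩, q ⟨x, hx'⟩⁆ = x from hyq ⟨x, hx'⟩]
    exact (h2 (hT3 _ (Finset.mem_image_of_mem y (Finset.mem_univ _)))).2 _ (hq _)
  · rw [Finset.card_product, Finset.card_product, Finset.card_univ]
    gcongr

end StNc1

open StNc1 in
theorem nc1 (hF : BFin) (hC : BCom) (hU : SUp) : SNC1 := by
  intro p u n L hx e j s N A _ _ ρ hfg hso hok P hP hexp hL hmu
  have hpL : 0 < p * L := Nat.mul_pos hx.prime.pos hx.pos
  obtain ⟨hn, -, -⟩ := hF.del N (p * L) e hso hfg hpL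
  obtain ⟨hn', -, -⟩ := hF.del N (p * L) (e + 1) hso hfg hpL
  have hQP : ⁅P, Del N (p * L) (e + 1)⁆ ≤ P := Subgroup.commutator_le_left _ _
  have hQD : ⁅P, Del N (p * L) (e + 1)⁆ ≤ Del N (p * L) e :=
    (Subgroup.commutator_le_right _ _).trans (del_succ_le _ _)
  obtain ⟨h1, h2⟩ := sup_eq_bot_iff.1 hmu
  have h3 : Cm (P.lowerCentralSeries j) P := cm_of_bot h2
  have h4 : ∀ x ∈ P.lowerCentralSeries j, x ^ p ^ (s + 1) = 1 := fun x h =>
    Subgroup.mem_bot.1 (h1 ▸ pow_mem_pw h _)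
  rcases j with _ | i
  · obtain ⟨t, ht⟩ := hU p u n L hx e N A ρ hfg hso hok P hP h3 hexp
    exact ⟨t, ht.mono ((mu_le _ _ _).trans (Subgroup.commutator_mono le_rfl (del_succ_le _ _)))
      le_rfl⟩
  have h5 : ∀ a ∈ P.lowerCentralSeries i, ∀ x ∈ P, ⁅a, x⁆ ∈ P.lowerCentralSeries (i + 1) :=
    fun a ha x h => Subgroup.commutator_mem_commutator ha h
  have h6 : ∀ a ∈ P.lowerCentralSeries i, ∀ x ∈ P, ∀ k : ℕ, ⁅a ^ k, x⁆ = ⁅a, x⁆ ^ k :=
    fun a ha x h => comm_pow_left (h3 _ (h5 a ha x h) a (lcs_le P i ha))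
  have h7 : ∀ k : ℕ, ∀ b ∈ mu P i k, ∀ x ∈ P, ∃ a ∈ P.lowerCentralSeries i,
      ⁅b, x⁆ = ⁅a, x⁆ ^ k := by
    intro k b hb x h
    obtain ⟨a, ha, c, hc, rfl⟩ := (hC.muMem N P i k b).1 hb
    refine ⟨a, ha, ?_⟩
    rw [comm_mul_left, commutatorElement_eq_one_iff_mul_comm.2 (h3 c hc x h), mul_one,
      mul_inv_cancel, one_mul, h6 a ha x h]
  by_cases hs : i = 0 ∧ s = 0
  · obtain ⟨rfl, rfl⟩ := hs
    have hB := mu_normal hF P 0 p
    have hc : Cm (mu P 0 p) P := fun b hb x h => by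
      obtain ⟨a, ha, h8⟩ := h7 p b hb x h
      rw [← commutatorElement_eq_one_iff_mul_comm, h8]
      simpa using h4 _ (h5 a ha x h)
    obtain ⟨t, ht⟩ := hU p u n L hx e N A ρ hfg hso hok (mu P 0 p) hB
      (fun b hb x h => hc b hb x (mu_le _ _ _ h)) fun b hb => hexp b (mu_le _ _ _ hb)
    obtain ⟨t', ht'⟩ := red1 ⁅P, ⁅P, Del N (p * L) (e + 1)⁆⁆ ⁅mu P 0 p, Del N (p * L) e⁆ hok ht
      fun A' _ σ hσ => by
        have hsj := QuotientGroup.mk'_surjective ⁅mu P 0 p, Del N (p * L) e⁆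
        have hPn := hP.map _ hsj
        rw [Subgroup.map_commutator, Subgroup.map_commutator, hF.delMap _ _ _ _ _ hsj]
        refine two hF hx e σ (fg_of_surj hfg _ hsj) (solv_of_surj hso _ hsj) hσ _
          ((mu P 0 p).map (QuotientGroup.mk' _)) (Subgroup.map_mono (mu_le _ _ _)) ?_ ?_ ?_ ?_
          (hL.map _ hsj)
        · rintro _ ⟨b, hb, rfl⟩ _ ⟨x, h, rfl⟩
          rw [← map_mul, hc b hb x h, map_mul]
        · rw [← Subgroup.map_commutator]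
          exact Subgroup.map_mono le_sup_right
        · rintro _ ⟨x, h, rfl⟩
          exact ⟨x ^ p, Subgroup.mem_sup_left (pow_mem_pw h p), map_pow _ _ _⟩
        · apply cm_of_bot
          rw [← hF.delMap _ _ _ _ _ hsj, ← Subgroup.map_commutator, Subgroup.map_eq_bot_iff,
            QuotientGroup.ker_mk']
    refine ⟨t', ht'.mono (sup_le ((pw_le _ _).trans ?_) ?_) le_rfl⟩
    · exact Subgroup.commutator_mono hQP le_rfl
    · exact Subgroup.commutator_mono ((lcs_le _ _).trans hQP) le_rfl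
  have hB := mu_normal hF P i (p ^ s)
  have hc : Cm (mu P i (p ^ s)) (mu P i (p ^ s)) := by
    rcases i with _ | i
    · intro b hb x h
      obtain ⟨a, ha, h8⟩ := h7 _ b hb x (mu_le _ _ _ h)
      obtain ⟨a', ha', h9⟩ := h7 _ x h a ha
      obtain ⟨s, rfl⟩ : ∃ s', s = s' + 1 := ⟨s - 1, by omega⟩
      rw [← commutatorElement_eq_one_iff_mul_comm, h8, ← commutatorElement_inv, h9, inv_pow,
        ← pow_mul, ← pow_add, show s + 1 + (s + 1) = s + 1 + 1 + s by omega, pow_add, pow_mul,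
        h4 _ (h5 a' ha' a ha), one_pow, inv_one]
    · have h8 : mu P (i + 1) (p ^ s) ≤ P.lowerCentralSeries (i + 1) :=
        sup_le (pw_le _ _) (P.lowerCentralSeries_antitone (Nat.le_succ _))
      refine cm_of_bot (le_bot_iff.1 ?_)
      refine (Subgroup.commutator_mono h8 h8).trans ((hC.add N P _ _).trans ?_)
      rw [← h2]
      exact P.lowerCentralSeries_antitone (by omega)
  obtain ⟨t, ht⟩ := hU p u n L hx e N A ρ hfg hso hok _ hB hc fun b hb => hexp b (mu_le _ _ _ hb)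
  refine ⟨t, ht.mono (sup_le (pw_le_iff.2 fun y hy => ?_) ?_) le_rfl⟩
  · have h8 : (⁅P, Del N (p * L) (e + 1)⁆ : Subgroup N).lowerCentralSeries (i + 1) ≤
        rt _ ⁅mu P i (p ^ s), Del N (p * L) e⁆ (fun b hb x h => h3 b hb x (lcs_le _ _ h))
          (p ^ s) := by
      refine Subgroup.commutator_le.2 fun a ha x h => ?_
      have ha' := lcs_mono hQP i ha
      refine ⟨h5 a ha' x (hQP h), ?_⟩
      rw [← h6 a ha' x (hQP h)]
      exact Subgroup.commutator_mem_commutator (Subgroup.mem_sup_left (pow_mem_pw ha' _)) (hQD h)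
    exact (h8 hy).2
  · exact (lcs_mono hQP _).trans (h2.le.trans bot_le)

end Pool.Agent.MP_5c28a4_al.H89S.StA
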